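import Pool.Agent.Seym90.Regular

/-!
Every system with two out-neighbours per vertex has a closed walk with distinct labels.
-/

namespace Pool.Agent.Seym90

open Finset

variable {α : Type*} [DecidableEq α]

lemma two_cycle {A : α → ℕ → α → Prop} {x y : α} {l l' : ℕ} (h : A x l y) (h' : A y l' x) (hl : l ≠ l') :
    Cl ∅ A := by
  have h1 : Walk A {l'} y x := Walk.step (mem_singleton_self l') h' (Walk.refl _ _)
  exact h1.close (by rw [mem_singleton]; exact hl) h

lemma one_cycle {A : α → ℕ → α → Prop} {x : α} {l : ℕ} (h : A x l x) : Cl ∅ A :=
  (Walk.refl ∅ x).close (notMem_empty _) h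

theorem main : ∀ (n : ℕ) (T : Finset α) (f g : α → α) (b : α → ℕ), T.Nonempty → Sys T n f g b →
    Cl ∅ (Arc T n f g b) := by
  intro n
  induction n using Nat.strong_induction_on with
  | _ n IH =>
    intro T f g b hT h
    by_contra hno
    have hn2 : 2 ≤ n := by
      obtain ⟨x, hx⟩ := hT
      have h1 : ({f x, g x} : Finset α) ⊆ T := by
        intro z hz
        rw [mem_insert, mem_singleton] at hz
        rcases hz with rfl | rfl
        · exact h.hf x hx
        · exact h.hg x hx
      have h2 := card_le_card h1
      rw [card_pair (h.ne x hx), h.card] at h2
      exact h2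
    have arcF : ∀ x ∈ T, ∀ l, l < n - b x → Arc T n f g b x l (f x) := fun x hx l hl =>
      ⟨hx, Or.inl ⟨rfl, hl⟩⟩
    have arcG : ∀ x ∈ T, ∀ l, l < b x → Arc T n f g b x l (g x) := fun x hx l hl =>
      ⟨hx, Or.inr ⟨rfl, hl⟩⟩
    have hloop : ∀ x ∈ T, f x ≠ x := by
      intro x hx he
      have h1 := h.two x hx
      have h2 := arcF x hx 0 (by omega)
      rw [he] at h2
      exact hno (one_cycle h2)
    obtain ⟨x₀, hx₀, hmax⟩ := exists_max_image T b hT
    obtain ⟨β, hβ⟩ : ∃ β, β = b x₀ := ⟨_, rfl⟩
    rw [← hβ] at hmax
    have h2β : 2 * β ≤ n := hβ ▸ h.two x₀ hx₀
    rcases Nat.lt_or_ge (2 * β) n with hlt | hge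
    · -- contraction with the label `β`
      have hfT := h.hf x₀ hx₀
      have hb1 := hmax _ hfT
      have hff : f (f x₀) ≠ x₀ := by
        intro he
        rcases Nat.eq_zero_or_pos β with h0 | hpos
        · have a1 := arcF x₀ hx₀ 1 (by omega)
          have a2 := arcF (f x₀) hfT 0 (by omega)
          rw [he] at a2
          exact hno (two_cycle a1 a2 (by omega))
        · have a1 := arcF x₀ hx₀ 0 (by omega)
          have a2 := arcF (f x₀) hfT β (by omega)
          rw [he] at a2
          exact hno (two_cycle a1 a2 (by omega))
      refine hno (one_step h hx₀ (j := β) b (by omega) (by omega) (hloop _ hx₀) hff (hloop _ hfT)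
        (fun _ _ => le_rfl) hmax ?_ ?_ ?_)
      · intro x hx
        have := hmax x hx
        omega
      · intro x hx l hl
        unfold sk
        split_ifs <;> omega
      · intro f' g' hs
        exact IH (n - 1) (by omega) _ f' g' b ⟨f x₀, mem_erase.2 ⟨hloop _ hx₀, hfT⟩⟩ hs
    · have hn : n = 2 * β := le_antisymm hge h2β
      by_cases hU : ∃ u ∈ T, b u < β
      · obtain ⟨u, hu, hbu⟩ := hU
        have hfT := h.hf u hu
        rcases Nat.lt_or_ge (b (f u)) β with hfu | hfu
        · -- contraction
          have hff : f (f u) ≠ u := by
            intro he
            have a1 := arcF u hu 0 (by omega)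
            have a2 := arcF (f u) hfT β (by omega)
            rw [he] at a2
            exact hno (two_cycle a1 a2 (by omega))
          refine hno (one_step h hu (j := β) (fun x => min (b x) (β - 1)) (by omega) (by omega)
            (hloop _ hu) hff (hloop _ hfT) (fun x _ => min_le_left _ _) hmax ?_ ?_ ?_)
          · intro x hx
            have : min (b x) (β - 1) ≤ β - 1 := min_le_right _ _
            omega
          · intro x hx l hl
            have h1 := hmax x hx
            unfold sk
            rcases Nat.lt_or_ge (b x) β with h2 | h2
            · have h3 : min (b x) (β - 1) = b x := min_eq_left (by omega)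
              simp only [h3] at hl
              split_ifs <;> omega
            · have h3 : min (b x) (β - 1) = β - 1 := min_eq_right (by omega)
              simp only [h3] at hl
              rw [if_pos (by omega)]
              omega
          · intro f' g' hs
            exact IH (n - 1) (by omega) _ f' g' _ ⟨f u, mem_erase.2 ⟨hloop _ hu, hfT⟩⟩ hs
        · -- deletion of `u` and `f u`
          have hw : b (f u) = β := le_antisymm (hmax _ hfT) hfu
          have hZc : ({u, f u} : Finset α).card = 2 := card_pair (hloop u hu).symm
          have hfw : f (f u) ∉ ({u, f u} : Finset α) := by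
            rw [mem_insert, mem_singleton, not_or]
            refine ⟨?_, hloop _ hfT⟩
            intro he
            have a1 := arcF u hu β (by omega)
            have a2 := arcF (f u) hfT 0 (by omega)
            rw [he] at a2
            exact hno (two_cycle a1 a2 (by omega))
          have hgw : g (f u) ∉ ({u, f u} : Finset α) := by
            rw [mem_insert, mem_singleton, not_or]
            constructor
            · intro he
              have a1 := arcF u hu β (by omega)
              have a2 := arcG (f u) hfT 0 (by omega)
              rw [he] at a2
              exact hno (two_cycle a1 a2 (by omega))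
            · intro he
              have a2 := arcG (f u) hfT 0 (by omega)
              rw [he] at a2
              exact hno (one_cycle a2)
          have hβ1 : β - 1 + 1 = β := by omega
          refine hno (z_step h (w := f u) (Z := {u, f u}) ?_ (by simp) (c := β - 1)
            (fun x => min (b x) (β - 1)) (j₁ := β) (j₂ := β - 1) (by omega) ?_ ?_ (by omega) (by omega)
            hfw hgw ?_ ?_ ?_ ?_)
          · intro z hz
            rw [mem_insert, mem_singleton] at hz
            rcases hz with rfl | rfl
            · exact hu
            · exact hfT
          · rw [hβ1, pair_comm]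
          · intro z hz
            rw [mem_insert, mem_singleton] at hz
            rcases hz with rfl | rfl
            · exact Or.inr (arcF z hu β (by omega))
            · exact Or.inl rfl
          · intro x hx l hl
            have h1 : min (b x) (β - 1) ≤ b x := min_le_left _ _
            have h2 : min (b x) (β - 1) ≤ β - 1 := min_le_right _ _
            unfold sk2
            rw [if_pos (by omega)]
            omega
          · intro x hx
            have h2 : min (b x) (β - 1) ≤ β - 1 := min_le_right _ _
            rw [hZc]
            omega
          · intro x hx l hl
            have h1 := hmax x hx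
            rw [hZc] at hl
            unfold sk2
            rcases Nat.lt_or_ge (b x) β with h2 | h2
            · have h3 : min (b x) (β - 1) = b x := min_eq_left (by omega)
              simp only [h3] at hl
              split_ifs <;> omega
            · have h3 : min (b x) (β - 1) = β - 1 := min_eq_right (by omega)
              simp only [h3] at hl
              rw [if_pos (by omega)]
              omega
          · intro f' g' hs
            exact IH _ (by rw [hZc]; omega) _ f' g' _
              ⟨f (f u), mem_sdiff.2 ⟨h.hf _ hfT, hfw⟩⟩ hs
      · push Not at hU
        have hall : ∀ x ∈ T, b x = β := fun x hx => le_antisymm (hmax x hx) (hU x hx)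
        have hAll : ∀ x ∈ T, ∀ l < β, Arc T n f g b x l (f x) ∧ Arc T n f g b x l (g x) := by
          intro x hx l hl
          have := hall x hx
          exact ⟨arcF x hx l (by omega), arcG x hx l (by omega)⟩
        by_cases hdeg : ∀ w ∈ T, (T.filter fun x => f x = w ∨ g x = w).card ≤ 2
        · exact hno (regular (β := β) hT (by rw [h.card]; exact hn) h.hf h.hg h.ne hdeg hAll)
        · push Not at hdeg
          obtain ⟨w, hw, hdeg⟩ := hdeg
          obtain ⟨Z₀, hZ₀, hZc₀⟩ := exists_subset_card_eq (show 3 ≤ _ from hdeg)
          have hβ2 : 2 ≤ β := by
            have h1 := card_le_card (hZ₀.trans (filter_subset _ _))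
            rw [hZc₀, h.card] at h1
            omega
          have hZadj : ∀ z ∈ Z₀, z ∈ T ∧ ∀ l < β, Arc T n f g b z l w := by
            intro z hz
            obtain ⟨hzT, hz'⟩ := mem_filter.1 (hZ₀ hz)
            refine ⟨hzT, fun l hl => ?_⟩
            have h5 := hAll z hzT l hl
            rcases hz' with h6 | h6
            · rw [h6] at h5; exact h5.1
            · rw [h6] at h5; exact h5.2
          have hwZ₀ : w ∉ Z₀ := fun hw' => hno (one_cycle ((hZadj w hw').2 0 (by omega)))
          have hZc : (insert w Z₀).card = 4 := by rw [card_insert_of_notMem hwZ₀, hZc₀]
          have hfw : f w ∉ insert w Z₀ := by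
            rw [mem_insert, not_or]
            exact ⟨hloop w hw, fun h' => hno (two_cycle ((hZadj _ h').2 1 (by omega))
              (hAll w hw 0 (by omega)).1 (by omega))⟩
          have hgw : g w ∉ insert w Z₀ := by
            rw [mem_insert, not_or]
            refine ⟨?_, fun h' => hno (two_cycle ((hZadj _ h').2 1 (by omega))
              (hAll w hw 0 (by omega)).2 (by omega))⟩
            intro he
            have a2 := (hAll w hw 0 (by omega)).2
            rw [he] at a2
            exact hno (one_cycle a2)
          have hbw := hall w hw
          have hβ1 : β - 2 + 1 = β - 1 := by omega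
          refine hno (z_step h (w := w) (Z := insert w Z₀) ?_ (mem_insert_self _ _) (c := β - 2)
            (fun _ => β - 2) (j₁ := β - 1) (j₂ := β - 2) (by omega) ?_ ?_ (by omega) (by omega)
            hfw hgw ?_ ?_ ?_ ?_)
          · intro z hz
            rcases mem_insert.1 hz with rfl | hz
            · exact hw
            · exact (hZadj z hz).1
          · rw [hβ1, pair_comm]
          · intro z hz
            rcases mem_insert.1 hz with rfl | hz
            · exact Or.inl rfl
            · exact Or.inr ((hZadj z hz).2 _ (by omega))
          · intro x hx l hl
            have h1 := hall x hx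
            unfold sk2
            rw [if_pos (by omega)]
            omega
          · intro x hx
            rw [hZc]
            omega
          · intro x hx l hl
            have h1 := hall x hx
            rw [hZc] at hl
            unfold sk2
            rw [if_pos (by omega)]
            omega
          · intro f' g' hs
            exact IH _ (by rw [hZc]; omega) _ f' g' _ ⟨f w, mem_sdiff.2 ⟨h.hf w hw, hfw⟩⟩ hs

end Pool.Agent.Seym90
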