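import Pool.Agent.Seym90.Step

/-!
The case in which all arcs carry the same labels and all in-degrees are two.
-/

namespace Pool.Agent.Seym90

open Finset

variable {α : Type*} [DecidableEq α] {A : α → ℕ → α → Prop}

lemma walk_of_seq (c : ℕ → α) : ∀ L : ℕ, (∀ i < L, A (c i) i (c (i + 1))) → Walk A (range L) (c 0) (c L) := by
  intro L
  induction L with
  | zero => intro _; exact Walk.refl _ _
  | succ L ih =>
    intro h
    have h1 := (ih fun i hi => h i (by omega)).tail (by simp) (h L (by omega))
    rwa [← range_add_one] at h1

lemma closed_of_seq (c : ℕ → α) {L : ℕ} (hL : 1 ≤ L) (hc : c L = c 0)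
    (h : ∀ i < L, A (c i) i (c (i + 1))) : Cl ∅ A := by
  have h1 := walk_of_seq c (L - 1) fun i hi => h i (by omega)
  have h2 := h (L - 1) (by omega)
  have h3 : L - 1 + 1 = L := by omega
  rw [h3, hc] at h2
  exact h1.close (by simp) h2

lemma exists_iter {S : Finset α} (hS : S.Nonempty) {h : α → α} (hh : ∀ x ∈ S, h x ∈ S) :
    ∃ x ∈ S, ∃ L, 1 ≤ L ∧ L ≤ S.card ∧ h^[L] x = x := by
  obtain ⟨x₀, hx₀⟩ := hS
  have hmem : ∀ i, h^[i] x₀ ∈ S := by
    intro i
    induction i with
    | zero => exact hx₀
    | succ i ih =>
      rw [Function.iterate_succ_apply']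
      exact hh _ ih
  have hcard : S.card < (range (S.card + 1)).card := by rw [card_range]; omega
  obtain ⟨i, hi, j, hj, hne, heq⟩ := exists_ne_map_eq_of_card_lt_of_maps_to hcard
    (f := fun i => h^[i] x₀) (fun i _ => hmem i)
  rw [mem_range] at hi hj
  have key : ∀ i j, i < j → j < S.card + 1 → h^[i] x₀ = h^[j] x₀ →
      ∃ x ∈ S, ∃ L, 1 ≤ L ∧ L ≤ S.card ∧ h^[L] x = x := by
    intro i j hij hj heq
    refine ⟨h^[i] x₀, hmem i, j - i, by omega, by omega, ?_⟩
    rw [← Function.iterate_add_apply]
    have : j - i + i = j := by omega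
    rw [this]
    exact heq.symm
  rcases Nat.lt_or_gt_of_ne hne with hlt | hlt
  · exact key i j hlt hj heq
  · exact key j i hlt hi heq.symm

/-- arcs with at least `m` labels along a self-map of a small set -/
lemma closed_forward {S : Finset α} (hS : S.Nonempty) {h : α → α} (hh : ∀ x ∈ S, h x ∈ S) {m : ℕ}
    (hm : S.card ≤ m) (ha : ∀ x ∈ S, ∀ l < m, A x l (h x)) : Cl ∅ A := by
  obtain ⟨x, hx, L, h1, h2, h3⟩ := exists_iter hS hh
  have hmem : ∀ i, h^[i] x ∈ S := by
    intro i
    induction i with
    | zero => exact hx
    | succ i ih =>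
      rw [Function.iterate_succ_apply']
      exact hh _ ih
  refine closed_of_seq (fun i => h^[i] x) h1 h3 ?_
  intro i hi
  show A (h^[i] x) i (h^[i + 1] x)
  rw [Function.iterate_succ_apply']
  exact ha _ (hmem i) i (by omega)

lemma closed_backward {S : Finset α} (hS : S.Nonempty) {h : α → α} (hh : ∀ x ∈ S, h x ∈ S) {m : ℕ}
    (hm : S.card ≤ m) (ha : ∀ x ∈ S, ∀ l < m, A (h x) l x) : Cl ∅ A := by
  obtain ⟨x, hx, L, h1, h2, h3⟩ := exists_iter hS hh
  have hmem : ∀ i, h^[i] x ∈ S := by
    intro i
    induction i with
    | zero => exact hx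
    | succ i ih =>
      rw [Function.iterate_succ_apply']
      exact hh _ ih
  refine closed_of_seq (fun i => h^[L - i] x) h1 ?_ ?_
  · show h^[L - L] x = h^[L - 0] x
    rw [Nat.sub_self, Nat.sub_zero, h3]
    rfl
  · intro i hi
    show A (h^[L - i] x) i (h^[L - (i + 1)] x)
    have h4 : L - i = (L - (i + 1)) + 1 := by omega
    rw [h4, Function.iterate_succ_apply']
    exact ha _ (hmem _) i (by omega)

/-- two-in two-out regular systems with equal labels -/
theorem regular {T : Finset α} {β : ℕ} {f g : α → α} (hT : T.Nonempty) (hcard : T.card = 2 * β)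
    (hf : ∀ x ∈ T, f x ∈ T) (hg : ∀ x ∈ T, g x ∈ T) (hne : ∀ x ∈ T, f x ≠ g x)
    (hin : ∀ w ∈ T, (T.filter fun x => f x = w ∨ g x = w).card ≤ 2)
    (hA : ∀ x ∈ T, ∀ l < β, A x l (f x) ∧ A x l (g x)) : Cl ∅ A := by
  by_contra hno
  -- all in-degrees are exactly two
  have hin2 : ∀ w ∈ T, (T.filter fun x => f x = w ∨ g x = w).card = 2 := by
    have h1 : ∑ w ∈ T, (T.filter fun x => f x = w ∨ g x = w).card = ∑ w ∈ T, 2 := by
      have h2 : ∀ w ∈ T, (T.filter fun x => f x = w ∨ g x = w).card
          = ∑ x ∈ T, if f x = w ∨ g x = w then 1 else 0 := by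
        intro w _
        rw [card_filter]
      rw [sum_congr rfl h2, sum_comm]
      apply sum_congr rfl
      intro x hx
      rw [← card_filter]
      have h3 : (T.filter fun w => f x = w ∨ g x = w) = {f x, g x} := by
        ext w
        rw [mem_filter, mem_insert, mem_singleton]
        constructor
        · rintro ⟨-, h | h⟩
          · exact Or.inl h.symm
          · exact Or.inr h.symm
        · rintro (h | h)
          · rw [h]; exact ⟨hf x hx, Or.inl rfl⟩
          · rw [h]; exact ⟨hg x hx, Or.inr rfl⟩
      rw [h3, card_pair (hne x hx)]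
    exact (sum_eq_sum_iff_of_le hin).1 h1
  obtain ⟨v, hv⟩ := hT
  have hβ : 1 ≤ β := by
    have := card_pos.2 ⟨v, hv⟩
    omega
  -- balls
  obtain ⟨S, hS0, hS1⟩ : ∃ S : ℕ → Finset α, S 0 = {v} ∧
      ∀ i, S (i + 1) = S i ∪ ((S i).image f ∪ (S i).image g) :=
    ⟨fun i => Nat.rec {v} (fun _ X => X ∪ (X.image f ∪ X.image g)) i, rfl, fun i => rfl⟩
  have hST : ∀ i, S i ⊆ T := by
    intro i
    induction i with
    | zero =>
      intro x hx
      rw [hS0, mem_singleton] at hx
      rw [hx]; exact hv
    | succ i ih =>
      intro x hx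
      rw [hS1, mem_union, mem_union, mem_image, mem_image] at hx
      rcases hx with hx | ⟨z, hz, rfl⟩ | ⟨z, hz, rfl⟩
      · exact ih hx
      · exact hf z (ih hz)
      · exact hg z (ih hz)
  have hSw : ∀ i, i ≤ β → ∀ y ∈ S i, Walk A (range i) v y := by
    intro i
    induction i with
    | zero =>
      intro _ y hy
      rw [hS0, mem_singleton] at hy
      rw [hy]; exact Walk.refl _ _
    | succ i ih =>
      intro hi y hy
      rw [hS1, mem_union, mem_union, mem_image, mem_image] at hy
      rcases hy with hy | ⟨z, hz, rfl⟩ | ⟨z, hz, rfl⟩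
      · exact (ih (by omega) y hy).mono (range_subset_range.2 (by omega))
      · have h1 := (ih (by omega) z hz).tail (by simp) (hA z (hST i hz) i (by omega)).1
        rwa [← range_add_one] at h1
      · have h1 := (ih (by omega) z hz).tail (by simp) (hA z (hST i hz) i (by omega)).2
        rwa [← range_add_one] at h1
  have hgrow : ∀ i, i + 1 ≤ β → 2 * i + 1 ≤ (S i).card := by
    intro i
    induction i with
    | zero =>
      intro _
      rw [hS0, card_singleton]
    | succ i ih =>
      intro hi
      have ih' := ih (by omega)
      have hsub : S i ⊆ S (i + 1) := by rw [hS1]; exact subset_union_left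
      have hadd : (S (i + 1) \ S i).card + (S i).card = (S (i + 1)).card := card_sdiff_add_card_eq_card hsub
      by_cases hbig : 2 ≤ (S (i + 1) \ S i).card
      · omega
      · -- a small boundary
        obtain ⟨y, hy⟩ : ∃ y : α, S (i + 1) \ S i ⊆ {y} := by
          rcases (S (i + 1) \ S i).eq_empty_or_nonempty with h0 | ⟨y, hy⟩
          · exact ⟨v, by rw [h0]; exact empty_subset _⟩
          · refine ⟨y, ?_⟩
            have h1 : (S (i + 1) \ S i).card ≤ 1 := by omega
            intro z hz
            rw [mem_singleton]
            exact card_le_one.1 h1 z hz y hy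
        have hout : ∀ s ∈ S i, ∀ z : α, (z = f s ∨ z = g s) → z ∈ insert y (S i) := by
          intro s hs z hz
          by_cases hzS : z ∈ S i
          · exact mem_insert_of_mem hzS
          · have h1 : z ∈ S (i + 1) := by
              rw [hS1, mem_union, mem_union, mem_image, mem_image]
              rcases hz with hz | hz
              · exact Or.inr (Or.inl ⟨s, hs, hz.symm⟩)
              · exact Or.inr (Or.inr ⟨s, hs, hz.symm⟩)
            have h2 := hy (mem_sdiff.2 ⟨h1, hzS⟩)
            rw [mem_singleton] at h2
            rw [h2]; exact mem_insert_self _ _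
        rcases (T \ insert y (S i)).eq_empty_or_nonempty with hU | hU
        · have h1 : T ⊆ insert y (S i) := sdiff_eq_empty_iff_subset.1 hU
          have h2 := card_le_card h1
          have h3 := card_insert_le y (S i)
          omega
        · exfalso
          have hd : (S i).card + (T \ insert y (S i)).card ≤ T.card := by
            rw [← card_union_of_disjoint]
            · refine card_le_card (union_subset (hST i) sdiff_subset)
            · rw [disjoint_left]
              intro z hz hz'
              exact (mem_sdiff.1 hz').2 (mem_insert_of_mem hz)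
          have hSne : (S i).Nonempty := card_pos.1 (by omega)
          rcases Nat.lt_or_ge β (S i).card with hlt | hge
          · -- the other side is small
            have hex : ∀ u ∈ T \ insert y (S i), ∃ x ∈ T \ insert y (S i), f x = u ∨ g x = u := by
              intro u hu
              obtain ⟨huT, huS⟩ := mem_sdiff.1 hu
              have h2 := hin2 u huT
              obtain ⟨x₁, x₂, hx12, hx⟩ := card_eq_two.1 h2
              have m1 : x₁ ∈ T ∧ (f x₁ = u ∨ g x₁ = u) := by
                have : x₁ ∈ T.filter fun x => f x = u ∨ g x = u := by rw [hx]; simp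
                exact mem_filter.1 this
              have m2 : x₂ ∈ T ∧ (f x₂ = u ∨ g x₂ = u) := by
                have : x₂ ∈ T.filter fun x => f x = u ∨ g x = u := by rw [hx]; simp
                exact mem_filter.1 this
              have n1 : ∀ x, (f x = u ∨ g x = u) → x ∉ S i := by
                intro x hx hxS
                exact huS (hout x hxS u (by
                  rcases hx with h | h
                  · exact Or.inl h.symm
                  · exact Or.inr h.symm))
              by_cases hxy : x₁ = y
              · refine ⟨x₂, mem_sdiff.2 ⟨m2.1, ?_⟩, m2.2⟩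
                rw [mem_insert, not_or]
                exact ⟨fun h => hx12 (hxy.trans h.symm), n1 x₂ m2.2⟩
              · refine ⟨x₁, mem_sdiff.2 ⟨m1.1, ?_⟩, m1.2⟩
                rw [mem_insert, not_or]
                exact ⟨hxy, n1 x₁ m1.2⟩
            choose! h hh1 hh2 using hex
            refine hno (closed_backward (A := A) hU (h := h) hh1 (m := β) (by omega) ?_)
            intro x hx l hl
            have h5 := hA (h x) (mem_sdiff.1 (hh1 x hx)).1 l hl
            rcases hh2 x hx with h6 | h6
            · rw [h6] at h5; exact h5.1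
            · rw [h6] at h5; exact h5.2
          · refine hno (closed_forward (A := A) hSne (h := fun s => if f s ∈ S i then f s else g s)
              ?_ hge ?_)
            · intro s hs
              by_cases hfs : f s ∈ S i
              · simp only [if_pos hfs]
                exact hfs
              · simp only [if_neg hfs]
                have h1 := hout s hs (f s) (Or.inl rfl)
                have h2 := hout s hs (g s) (Or.inr rfl)
                rw [mem_insert] at h1 h2
                rcases h1 with h1 | h1
                · rcases h2 with h2 | h2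
                  · exact absurd (h1.trans h2.symm) (hne s (hST i hs))
                  · exact h2
                · exact absurd h1 hfs
            · intro s hs l hl
              have h5 := hA s (hST i hs) l hl
              by_cases hfs : f s ∈ S i
              · simp only [if_pos hfs]
                exact h5.1
              · simp only [if_neg hfs]
                exact h5.2
  -- an in-neighbour of `v` in the last ball
  have hlast := hgrow (β - 1) (by omega)
  have hcl : (T \ S (β - 1)).card ≤ 1 := by
    rw [card_sdiff_of_subset (hST _)]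
    omega
  obtain ⟨x₁, x₂, hx12, hx⟩ := card_eq_two.1 (hin2 v hv)
  have m1 : x₁ ∈ T ∧ (f x₁ = v ∨ g x₁ = v) := by
    have : x₁ ∈ T.filter fun x => f x = v ∨ g x = v := by rw [hx]; simp
    exact mem_filter.1 this
  have m2 : x₂ ∈ T ∧ (f x₂ = v ∨ g x₂ = v) := by
    have : x₂ ∈ T.filter fun x => f x = v ∨ g x = v := by rw [hx]; simp
    exact mem_filter.1 this
  have hfin : ∀ x, x ∈ T → (f x = v ∨ g x = v) → x ∉ S (β - 1) := by
    intro x hxT hx hxS
    have h1 := hSw (β - 1) (by omega) x hxS
    have h2 := hA x hxT (β - 1) (by omega)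
    rcases hx with h3 | h3
    · rw [h3] at h2
      exact hno (h1.close (by simp) h2.1)
    · rw [h3] at h2
      exact hno (h1.close (by simp) h2.2)
  exact hx12 (card_le_one.1 hcl x₁ (mem_sdiff.2 ⟨m1.1, hfin x₁ m1.1 m1.2⟩) x₂
    (mem_sdiff.2 ⟨m2.1, hfin x₂ m2.1 m2.2⟩))

end Pool.Agent.Seym90
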