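import Pool.Agent.Seym90.Walk

/-!
Systems with two out-neighbours per vertex; the two kinds of deletion steps.
-/

namespace Pool.Agent.Seym90

open Finset

variable {α : Type*} [DecidableEq α]

/-- arcs: `x → f x` carries the labels below `n - b x`, `x → g x` the labels below `b x` -/
def Arc (T : Finset α) (n : ℕ) (f g : α → α) (b : α → ℕ) (x : α) (l : ℕ) (y : α) : Prop :=
  x ∈ T ∧ ((y = f x ∧ l < n - b x) ∨ (y = g x ∧ l < b x))

/-- a system on `T` with `n` labels in total at every vertex -/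
structure Sys (T : Finset α) (n : ℕ) (f g : α → α) (b : α → ℕ) : Prop where
  card : T.card = n
  hf : ∀ x ∈ T, f x ∈ T
  hg : ∀ x ∈ T, g x ∈ T
  ne : ∀ x ∈ T, f x ≠ g x
  two : ∀ x ∈ T, 2 * b x ≤ n

variable {T : Finset α} {n : ℕ} {f g : α → α} {b : α → ℕ}

/-- relabelling that avoids `j` -/
def sk (j l : ℕ) : ℕ := if l < j then l else l + 1

lemma sk_inj (j : ℕ) : Function.Injective (sk j) := by
  intro a c h
  unfold sk at h
  split_ifs at h <;> omega

lemma sk_ne (j l : ℕ) : sk j l ≠ j := by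
  unfold sk
  split_ifs <;> omega

/-- relabelling that avoids `j` and `j + 1` -/
def sk2 (j l : ℕ) : ℕ := if l < j then l else l + 2

lemma sk2_inj (j : ℕ) : Function.Injective (sk2 j) := by
  intro a c h
  unfold sk2 at h
  split_ifs at h <;> omega

lemma sk2_notMem (j l : ℕ) : sk2 j l ∉ ({j, j + 1} : Finset ℕ) := by
  unfold sk2
  rw [mem_insert, mem_singleton]
  split_ifs <;> omega

/-- contraction of one arc -/
theorem one_step (h : Sys T n f g b) {v : α} (hv : v ∈ T) {j : ℕ} (b' : α → ℕ)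
    (h1 : j < n - b v) (h2 : j < n - b (f v)) (hv1 : f v ≠ v) (hv2 : f (f v) ≠ v) (hv12 : f (f v) ≠ f v)
    (hb : ∀ x ∈ T, b' x ≤ b x) (hbj : ∀ x ∈ T, b x ≤ j) (hb2 : ∀ x ∈ T, 2 * b' x ≤ n - 1)
    (ha : ∀ x ∈ T, ∀ l, l < n - 1 - b' x → sk j l < n - b x)
    (ih : ∀ f' g' : α → α, Sys (T.erase v) (n - 1) f' g' b' → Cl ∅ (Arc (T.erase v) (n - 1) f' g' b')) :
    Cl ∅ (Arc T n f g b) := by
  obtain ⟨f', hf'⟩ : ∃ f' : α → α, f' = fun x => if f x = v then f v else f x := ⟨_, rfl⟩
  obtain ⟨g', hg'⟩ : ∃ g' : α → α, g' = fun x => if g x = v then (if f x = f v then f (f v) else f v)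
    else if f x = v ∧ g x = f v then f (f v) else g x := ⟨_, rfl⟩
  have hfv : f v ∈ T := h.hf v hv
  have hffv : f (f v) ∈ T := h.hf _ hfv
  have hsys : Sys (T.erase v) (n - 1) f' g' b' := by
    refine ⟨?_, ?_, ?_, ?_, ?_⟩
    · rw [card_erase_of_mem hv, h.card]
    · intro x hx
      have hxT := mem_of_mem_erase hx
      rw [hf', mem_erase]
      by_cases hc : f x = v
      · simp only [hc, if_true]
        exact ⟨hv1, hfv⟩
      · simp only [hc, if_false]
        exact ⟨hc, h.hf x hxT⟩
    · intro x hx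
      have hxT := mem_of_mem_erase hx
      rw [hg', mem_erase]
      by_cases hc : g x = v
      · by_cases hd : f x = f v
        · simp only [hc, hd, if_true]
          exact ⟨hv2, hffv⟩
        · simp only [hc, hd, if_true, if_false]
          exact ⟨hv1, hfv⟩
      · by_cases hd : f x = v ∧ g x = f v
        · simp only [hc, if_false, if_pos hd]
          exact ⟨hv2, hffv⟩
        · simp only [hc, if_false, if_neg hd]
          exact ⟨hc, h.hg x hxT⟩
    · intro x hx
      have hxT := mem_of_mem_erase hx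
      have hne := h.ne x hxT
      by_cases hc : f x = v
      · have hgv : g x ≠ v := fun h => hne (hc.trans h.symm)
        have e1 : f' x = f v := by rw [hf']; exact if_pos hc
        by_cases hd : g x = f v
        · have e2 : g' x = f (f v) := by rw [hg']; exact (if_neg hgv).trans (if_pos ⟨hc, hd⟩)
          rw [e1, e2]
          exact fun h => hv12 h.symm
        · have e2 : g' x = g x := by rw [hg']; exact (if_neg hgv).trans (if_neg fun h => hd h.2)
          rw [e1, e2]
          exact fun h => hd h.symm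
      · have e1 : f' x = f x := by rw [hf']; exact if_neg hc
        by_cases hd : g x = v
        · by_cases he : f x = f v
          · have e2 : g' x = f (f v) := by rw [hg']; exact (if_pos hd).trans (if_pos he)
            rw [e1, e2, he]
            exact fun h => hv12 h.symm
          · have e2 : g' x = f v := by rw [hg']; exact (if_pos hd).trans (if_neg he)
            rw [e1, e2]
            exact he
        · have e2 : g' x = g x := by rw [hg']; exact (if_neg hd).trans (if_neg fun h => hc h.1)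
          rw [e1, e2]
          exact hne
    · intro x hx
      exact hb2 x (mem_of_mem_erase hx)
  have hcl := ih f' g' hsys
  -- virtual arcs
  obtain ⟨Q, hQ⟩ : ∃ Q : ℕ → α → ℕ → α → Prop, Q = fun i x l y =>
    (i = 0 ∧ y = f v ∧ Arc T n f g b x l v) ∨ (i = 1 ∧ y = f (f v) ∧ Arc T n f g b x l (f v)) := ⟨_, rfl⟩
  have hA1 : Arc T n f g b v j (f v) := ⟨hv, Or.inl ⟨rfl, h1⟩⟩
  have hA2 : Arc T n f g b (f v) j (f (f v)) := ⟨hfv, Or.inl ⟨rfl, h2⟩⟩
  refine cl_of_rank (A := Arc T n f g b) (Q := Q) (J := {j}) (N := 1) ?_ ?_ 0 ?_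
  · intro i hi u x w hq
    rw [hQ] at hq
    rcases hq with ⟨h0, -⟩ | ⟨h0, -⟩ <;> omega
  · intro i i' hii w x y w' x' y' Ω hq hw hd hx1 hx2 hq'
    rw [hQ] at hq hq'
    have hjΩ : j ∉ Ω := fun hj => disjoint_left.1 hd hj (mem_singleton_self j)
    have hxj : x' ≠ j := fun he => hx2 (he ▸ mem_singleton_self j)
    rcases hq with ⟨h0, hy, harc⟩ | ⟨h0, hy, harc⟩
    · rw [hy] at hw
      rcases hq' with ⟨h0', hy', harc'⟩ | ⟨h0', hy', harc'⟩
      · refine (hw.tail hx1 harc').close ?_ hA1
        rw [mem_insert, not_or]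
        exact ⟨fun he => hxj he.symm, hjΩ⟩
      · exact hw.close hx1 harc'
    · rw [hy] at hw
      rcases hq' with ⟨h0', hy', harc'⟩ | ⟨h0', hy', harc'⟩
      · omega
      · refine (hw.tail hx1 harc').close ?_ hA2
        rw [mem_insert, not_or]
        exact ⟨fun he => hxj he.symm, hjΩ⟩
  · refine hcl.map (sk_inj j) (fun x hx => sk_ne j x (mem_singleton.1 hx)) ?_
    rintro x l y ⟨hx, harc⟩
    have hxT := mem_of_mem_erase hx
    have hble := hb x hxT
    have hbj' := hbj x hxT
    have htwo := h.two x hxT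
    rcases harc with ⟨hy, hl⟩ | ⟨hy, hl⟩
    · have hl' := ha x hxT l hl
      rw [hf'] at hy
      by_cases hc : f x = v
      · simp only [hc, if_true] at hy
        right
        refine ⟨0, le_rfl, ?_⟩
        rw [hQ]
        exact Or.inl ⟨rfl, hy, hxT, Or.inl ⟨hc.symm, hl'⟩⟩
      · simp only [hc, if_false] at hy
        left
        exact ⟨hxT, Or.inl ⟨hy, hl'⟩⟩
    · have hsk : sk j l = l := by
        unfold sk
        rw [if_pos (by omega)]
      have hlb : l < b x := by omega
      rw [hsk, hQ]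
      rw [hg'] at hy
      by_cases hc : g x = v
      · right
        by_cases hd : f x = f v
        · simp only [hc, hd, if_true] at hy
          refine ⟨1, Nat.zero_le _, Or.inr ⟨rfl, hy, hxT, Or.inl ⟨hd.symm, by omega⟩⟩⟩
        · simp only [hc, hd, if_true, if_false] at hy
          refine ⟨0, le_rfl, Or.inl ⟨rfl, hy, hxT, Or.inr ⟨hc.symm, hlb⟩⟩⟩
      · by_cases hd : f x = v ∧ g x = f v
        · simp only [hc, if_false, if_pos hd] at hy
          right
          refine ⟨1, Nat.zero_le _, Or.inr ⟨rfl, hy, hxT, Or.inr ⟨hd.2.symm, hlb⟩⟩⟩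
        · simp only [hc, if_false, if_neg hd] at hy
          left
          exact ⟨hxT, Or.inr ⟨hy, hlb⟩⟩

/-- deletion of a set `Z` of vertices with arcs to `w ∈ Z` -/
theorem z_step (h : Sys T n f g b) {w : α} {Z : Finset α} (hZ : Z ⊆ T) (hwZ : w ∈ Z) {c : ℕ} (b' : α → ℕ)
    {j₁ j₂ : ℕ} (hj : j₁ ≠ j₂) (hJ : ({j₁, j₂} : Finset ℕ) = {c, c + 1})
    (hzw : ∀ z ∈ Z, z = w ∨ Arc T n f g b z j₁ w)
    (hf2 : j₂ < n - b w) (hg2 : j₂ < b w) (hfZ : f w ∉ Z) (hgZ : g w ∉ Z)
    (hb : ∀ x ∈ T, ∀ l, l < b' x → sk2 c l < b x) (hb2 : ∀ x ∈ T, 2 * b' x ≤ n - Z.card)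
    (hab : ∀ x ∈ T, ∀ l, l < n - Z.card - b' x → sk2 c l < n - b x)
    (ih : ∀ f' g' : α → α, Sys (T \ Z) (n - Z.card) f' g' b' → Cl ∅ (Arc (T \ Z) (n - Z.card) f' g' b')) :
    Cl ∅ (Arc T n f g b) := by
  have hwT : w ∈ T := hZ hwZ
  have hfw : f w ∈ T := h.hf w hwT
  have hgw : g w ∈ T := h.hg w hwT
  have hfgw : f w ≠ g w := h.ne w hwT
  obtain ⟨f', hf'⟩ : ∃ f' : α → α, f' = fun x => if f x ∈ Z then f w else f x := ⟨_, rfl⟩
  obtain ⟨g', hg'⟩ : ∃ g' : α → α, g' = fun x =>
    if f x ∈ Z then (if g x ∈ Z ∨ g x = f w then g w else g x)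
    else if g x ∈ Z then (if f x = f w then g w else f w) else g x := ⟨_, rfl⟩
  have hsys : Sys (T \ Z) (n - Z.card) f' g' b' := by
    refine ⟨?_, ?_, ?_, ?_, ?_⟩
    · rw [card_sdiff_of_subset hZ, h.card]
    · intro x hx
      have hxT := (mem_sdiff.1 hx).1
      rw [hf', mem_sdiff]
      by_cases hc : f x ∈ Z
      · simp only [if_pos hc]
        exact ⟨hfw, hfZ⟩
      · simp only [if_neg hc]
        exact ⟨h.hf x hxT, hc⟩
    · intro x hx
      have hxT := (mem_sdiff.1 hx).1
      rw [hg', mem_sdiff]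
      by_cases hc : f x ∈ Z
      · by_cases hd : g x ∈ Z ∨ g x = f w
        · simp only [hc, if_true, if_pos hd]
          exact ⟨hgw, hgZ⟩
        · simp only [hc, if_true, if_neg hd]
          rw [not_or] at hd
          exact ⟨h.hg x hxT, hd.1⟩
      · by_cases hd : g x ∈ Z
        · by_cases he : f x = f w
          · simp only [hc, hd, he, if_true, if_false]
            by_cases hfwZ : f w ∈ Z
            · exact absurd hfwZ hfZ
            · simp only [hfwZ, if_false]
              exact ⟨hgw, hgZ⟩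
          · simp only [hc, hd, he, if_true, if_false]
            exact ⟨hfw, hfZ⟩
        · simp only [if_neg hc, if_neg hd]
          exact ⟨h.hg x hxT, hd⟩
    · intro x hx
      have hxT := (mem_sdiff.1 hx).1
      have hne := h.ne x hxT
      rw [hf', hg']
      by_cases hc : f x ∈ Z
      · by_cases hd : g x ∈ Z ∨ g x = f w
        · simp only [hc, if_true, if_pos hd]
          exact hfgw
        · simp only [hc, if_true, if_neg hd]
          rw [not_or] at hd
          exact fun h => hd.2 h.symm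
      · by_cases hd : g x ∈ Z
        · by_cases he : f x = f w
          · simp only [hc, hd, he, if_true, if_false]
            simp only [hfZ, if_false]
            exact hfgw
          · simp only [hc, hd, he, if_true, if_false]
            exact he
        · simp only [hc, hd, if_false]
          exact hne
    · intro x hx
      exact hb2 x (mem_sdiff.1 hx).1
  have hcl := ih f' g' hsys
  obtain ⟨Q, hQ⟩ : ∃ Q : ℕ → α → ℕ → α → Prop, Q = fun i x l y =>
    i = 0 ∧ (y = f w ∨ y = g w) ∧ ∃ z ∈ Z, Arc T n f g b x l z := ⟨_, rfl⟩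
  have hA1 : Arc T n f g b w j₂ (f w) := ⟨hwT, Or.inl ⟨rfl, hf2⟩⟩
  have hA2 : Arc T n f g b w j₂ (g w) := ⟨hwT, Or.inr ⟨rfl, hg2⟩⟩
  refine cl_of_rank (A := Arc T n f g b) (Q := Q) (J := {c, c + 1}) (N := 0) ?_ ?_ 0 ?_
  · intro i hi u x y hq
    rw [hQ] at hq
    have := hq.1
    omega
  · intro i i' hii u x y u' x' y' Ω hq hw hd hx1 hx2 hq'
    rw [hQ] at hq hq'
    rw [← hJ] at hd hx2
    have hj1Ω : j₁ ∉ Ω := fun hj => disjoint_left.1 hd hj (by simp)
    have hj2Ω : j₂ ∉ Ω := fun hj => disjoint_left.1 hd hj (by simp)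
    have hxj1 : x' ≠ j₁ := fun he => hx2 (by rw [he]; simp)
    have hxj2 : x' ≠ j₂ := fun he => hx2 (by rw [he]; simp)
    have hA : Arc T n f g b w j₂ y := by
      rcases hq.2.1 with he | he
      · rw [he]; exact hA1
      · rw [he]; exact hA2
    obtain ⟨z, hz, harc⟩ := hq'.2.2
    have hw2 := hw.tail hx1 harc
    rcases hzw z hz with he | he
    · rw [he] at hw2
      refine hw2.close ?_ hA
      rw [mem_insert, not_or]
      exact ⟨fun he => hxj2 he.symm, hj2Ω⟩
    · have hw3 := hw2.tail (x := j₁) (by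
        rw [mem_insert, not_or]
        exact ⟨fun he => hxj1 he.symm, hj1Ω⟩) he
      refine hw3.close ?_ hA
      rw [mem_insert, mem_insert, not_or, not_or]
      exact ⟨fun he => hj he.symm, fun he => hxj2 he.symm, hj2Ω⟩
  · refine hcl.map (sk2_inj c) (fun x => sk2_notMem c x) ?_
    rintro x l y ⟨hx, harc⟩
    have hxT := (mem_sdiff.1 hx).1
    rcases harc with ⟨hy, hl⟩ | ⟨hy, hl⟩
    · have hl' := hab x hxT l hl
      rw [hf'] at hy
      by_cases hc : f x ∈ Z
      · simp only [hc, if_true] at hy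
        right
        refine ⟨0, le_rfl, ?_⟩
        rw [hQ]
        exact ⟨rfl, Or.inl hy, f x, hc, hxT, Or.inl ⟨rfl, hl'⟩⟩
      · simp only [hc, if_false] at hy
        left
        exact ⟨hxT, Or.inl ⟨hy, hl'⟩⟩
    · have hl' := hb x hxT l hl
      have htwo := h.two x hxT
      rw [hQ]
      rw [hg'] at hy
      by_cases hc : f x ∈ Z
      · by_cases hd : g x ∈ Z ∨ g x = f w
        · simp only [hc, if_true, if_pos hd] at hy
          right
          exact ⟨0, le_rfl, rfl, Or.inr hy, f x, hc, hxT, Or.inl ⟨rfl, by omega⟩⟩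
        · simp only [hc, if_true, if_neg hd] at hy
          left
          exact ⟨hxT, Or.inr ⟨hy, hl'⟩⟩
      · by_cases hd : g x ∈ Z
        · right
          by_cases he : f x = f w
          · simp only [hc, hd, if_true, if_false, he] at hy
            simp only [hfZ, if_false] at hy
            exact ⟨0, le_rfl, rfl, Or.inr hy, g x, hd, hxT, Or.inr ⟨rfl, hl'⟩⟩
          · simp only [hc, hd, if_true, if_false, he] at hy
            exact ⟨0, le_rfl, rfl, Or.inl hy, g x, hd, hxT, Or.inr ⟨rfl, hl'⟩⟩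
        · simp only [hc, hd, if_false] at hy
          left
          exact ⟨hxT, Or.inr ⟨hy, hl'⟩⟩

end Pool.Agent.Seym90
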