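import Mathlib

/-!
Walks with distinct labels along a labelled arc relation, and the rank lemma for virtual arcs.
-/

namespace Pool.Agent.Seym90

open Finset

variable {α : Type*}

/-- a walk with distinct labels from `Ω` -/
inductive Walk (A : α → ℕ → α → Prop) : Finset ℕ → α → α → Prop
  | refl (Ω : Finset ℕ) (u : α) : Walk A Ω u u
  | step {Ω : Finset ℕ} {x : ℕ} {u w y : α} (hx : x ∈ Ω) (ha : A u x w)
      (h : Walk A (Ω.erase x) w y) : Walk A Ω u y

variable {A B D : α → ℕ → α → Prop}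

theorem Walk.mono {Ω Ω' : Finset ℕ} {u y : α} (h : Walk A Ω u y) (hs : Ω ⊆ Ω') :
    Walk A Ω' u y := by
  induction h generalizing Ω' with
  | refl Ω u => exact Walk.refl _ _
  | step hx ha _ ih => exact Walk.step (hs hx) ha (ih (erase_subset_erase _ hs))

theorem Walk.imp {Ω : Finset ℕ} {u y : α} (h : Walk A Ω u y)
    (hAB : ∀ u, ∀ x ∈ Ω, ∀ w, A u x w → B u x w) : Walk B Ω u y := by
  induction h with
  | refl Ω u => exact Walk.refl _ _
  | step hx ha _ ih =>
    exact Walk.step hx (hAB _ _ hx _ ha) (ih fun u x hx' w hw => hAB u x (mem_of_mem_erase hx') w hw)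

theorem Walk.tail {Ω : Finset ℕ} {u w y : α} {x : ℕ} (h : Walk A Ω u w) (hx : x ∉ Ω)
    (ha : A w x y) : Walk A (insert x Ω) u y := by
  induction h with
  | refl Ω u => exact Walk.step (mem_insert_self x Ω) ha (Walk.refl _ _)
  | @step Ω x' u w' w hx' ha' _ ih =>
    have hne : x ≠ x' := fun h => hx (h ▸ hx')
    refine Walk.step (mem_insert_of_mem hx') ha' ?_
    rw [erase_insert_of_ne hne]
    exact ih (fun h => hx (mem_of_mem_erase h)) ha

theorem Walk.trans {Ω Ω' : Finset ℕ} {u w y : α} (h : Walk A Ω u w) (h' : Walk A Ω' w y)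
    (hd : Disjoint Ω Ω') : Walk A (Ω ∪ Ω') u y := by
  induction h with
  | refl Ω u => exact h'.mono subset_union_right
  | @step Ω x u w' w hx ha _ ih =>
    refine Walk.step (mem_union_left _ hx) ha ?_
    have hx' : x ∉ Ω' := fun h => (disjoint_left.1 hd) hx h
    rw [erase_union_distrib, erase_eq_of_notMem hx']
    exact ih h' (disjoint_of_subset_left (erase_subset _ _) hd)

theorem Walk.map {σ : ℕ → ℕ} (hσ : Function.Injective σ) (hAB : ∀ u x w, A u x w → B u (σ x) w)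
    {Ω : Finset ℕ} {u y : α} (h : Walk A Ω u y) : Walk B (Ω.image σ) u y := by
  induction h with
  | refl Ω u => exact Walk.refl _ _
  | @step Ω x u w y hx ha _ ih =>
    refine Walk.step (mem_image_of_mem σ hx) (hAB _ _ _ ha) ?_
    rw [← image_erase hσ]
    exact ih

/-- a closed walk with distinct labels outside `J` -/
def Cl (J : Finset ℕ) (A : α → ℕ → α → Prop) : Prop :=
  ∃ (x : ℕ) (u w : α) (Ω : Finset ℕ), x ∉ Ω ∧ x ∉ J ∧ Disjoint Ω J ∧ A u x w ∧ Walk A Ω w u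

theorem Cl.mono {J : Finset ℕ} (h : Cl J A) (hAB : ∀ u x w, A u x w → B u x w) : Cl J B := by
  obtain ⟨x, u, w, Ω, h1, h2, h3, h4, h5⟩ := h
  exact ⟨x, u, w, Ω, h1, h2, h3, hAB _ _ _ h4, h5.imp fun u x _ w hw => hAB u x w hw⟩

theorem Cl.empty {J : Finset ℕ} (h : Cl J A) : Cl ∅ A := by
  obtain ⟨x, u, w, Ω, h1, h2, h3, h4, h5⟩ := h
  exact ⟨x, u, w, Ω, h1, notMem_empty _, disjoint_empty_right _, h4, h5⟩

theorem Cl.map {σ : ℕ → ℕ} (hσ : Function.Injective σ) {J : Finset ℕ} (hJ : ∀ x, σ x ∉ J)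
    (hAB : ∀ u x w, A u x w → B u (σ x) w) (h : Cl ∅ A) : Cl J B := by
  obtain ⟨x, u, w, Ω, h1, -, -, h4, h5⟩ := h
  refine ⟨σ x, u, w, Ω.image σ, ?_, hJ x, ?_, hAB _ _ _ h4, h5.map hσ hAB⟩
  · intro h
    obtain ⟨z, hz, hzx⟩ := mem_image.1 h
    exact h1 (hσ hzx ▸ hz)
  · rw [disjoint_left]
    intro z hz hzJ
    obtain ⟨z', -, rfl⟩ := mem_image.1 hz
    exact hJ z' hzJ

/-- closing a walk by one arc -/
theorem Walk.close {Ω : Finset ℕ} {u w : α} {x : ℕ} (h : Walk A Ω w u) (hx : x ∉ Ω) (ha : A u x w) :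
    Cl ∅ A :=
  ⟨x, u, w, Ω, hx, notMem_empty _, disjoint_empty_right _, ha, h⟩

/-- the first arc of the second kind on a walk -/
theorem Walk.first {Q : α → ℕ → α → Prop} {Ω : Finset ℕ} {u y : α}
    (h : Walk (fun u x w => A u x w ∨ Q u x w) Ω u y) :
    Walk A Ω u y ∨ ∃ (Ω₁ : Finset ℕ) (x : ℕ) (v b : α), Ω₁ ⊆ Ω ∧ x ∈ Ω ∧ x ∉ Ω₁ ∧
      Walk A Ω₁ u v ∧ Q v x b := by
  induction h with
  | refl Ω u => exact Or.inl (Walk.refl _ _)
  | @step Ω x u w y hx ha _ ih =>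
    rcases ha with ha | ha
    · rcases ih with h1 | ⟨Ω₁, x', v, b, h1, h2, h3, h4, h5⟩
      · exact Or.inl (Walk.step hx ha h1)
      · refine Or.inr ⟨insert x Ω₁, x', v, b, ?_, mem_of_mem_erase h2, ?_, ?_, h5⟩
        · intro z hz
          rcases mem_insert.1 hz with rfl | hz
          · exact hx
          · exact mem_of_mem_erase (h1 hz)
        · rw [mem_insert, not_or]
          exact ⟨(mem_erase.1 h2).1, h3⟩
        · refine Walk.step (mem_insert_self x Ω₁) ha ?_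
          refine h4.mono ?_
          intro z hz
          exact mem_erase.2 ⟨(mem_erase.1 (h1 hz)).1, mem_insert_of_mem hz⟩
    · exact Or.inr ⟨∅, x, u, w, empty_subset _, hx, notMem_empty _, Walk.refl _ _, ha⟩

/-- splitting a walk at an arc of the second kind -/
theorem Walk.split {R : α → ℕ → α → Prop} {Ω : Finset ℕ} {u y : α}
    (h : Walk (fun u x w => D u x w ∨ R u x w) Ω u y) :
    Walk D Ω u y ∨ ∃ (Ω₁ Ω₂ : Finset ℕ) (x : ℕ) (v b : α), Ω₁ ⊆ Ω ∧ Ω₂ ⊆ Ω ∧ Disjoint Ω₁ Ω₂ ∧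
      x ∈ Ω ∧ x ∉ Ω₁ ∧ x ∉ Ω₂ ∧ Walk (fun u x w => D u x w ∨ R u x w) Ω₁ u v ∧ R v x b ∧
      Walk (fun u x w => D u x w ∨ R u x w) Ω₂ b y := by
  induction h with
  | refl Ω u => exact Or.inl (Walk.refl _ _)
  | @step Ω x u w y hx ha hwalk ih =>
    rcases ha with ha | ha
    · rcases ih with h1 | ⟨Ω₁, Ω₂, x', v, b, h1, h1', hd, h2, h3, h3', h4, h5, h6⟩
      · exact Or.inl (Walk.step hx ha h1)
      · refine Or.inr ⟨insert x Ω₁, Ω₂, x', v, b, ?_, ?_, ?_, mem_of_mem_erase h2, ?_, h3', ?_, h5, h6⟩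
        · intro z hz
          rcases mem_insert.1 hz with rfl | hz
          · exact hx
          · exact mem_of_mem_erase (h1 hz)
        · exact fun z hz => mem_of_mem_erase (h1' hz)
        · rw [disjoint_insert_left]
          exact ⟨fun hxx => (mem_erase.1 (h1' hxx)).1 rfl, hd⟩
        · rw [mem_insert, not_or]
          exact ⟨(mem_erase.1 h2).1, h3⟩
        · refine Walk.step (mem_insert_self x Ω₁) (Or.inl ha) ?_
          refine h4.mono ?_
          intro z hz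
          exact mem_erase.2 ⟨(mem_erase.1 (h1 hz)).1, mem_insert_of_mem hz⟩
    · exact Or.inr ⟨∅, Ω.erase x, x, u, w, empty_subset _, erase_subset _ _, disjoint_empty_left _,
        hx, notMem_empty _, notMem_erase _ _, Walk.refl _ _, ha, hwalk⟩

/-- a closed walk either avoids the arcs of the second kind or starts right after one of them -/
theorem Cl.rotate {R : α → ℕ → α → Prop} {J : Finset ℕ} (h : Cl J (fun u x w => D u x w ∨ R u x w)) :
    Cl J D ∨ ∃ (Ω : Finset ℕ) (x : ℕ) (v b : α), x ∉ Ω ∧ x ∉ J ∧ Disjoint Ω J ∧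
      Walk (fun u x w => D u x w ∨ R u x w) Ω b v ∧ R v x b := by
  obtain ⟨x, u, w, Ω, h1, h2, h3, h4, h5⟩ := h
  rcases h4 with h4 | h4
  · rcases h5.split with h6 | ⟨Ω₁, Ω₂, x', v, b, s1, s2, hd, hx', hx1, hx2, r1, hR, r2⟩
    · exact Or.inl ⟨x, u, w, Ω, h1, h2, h3, h4, h6⟩
    · refine Or.inr ⟨Ω₂ ∪ (insert x Ω₁), x', v, b, ?_, disjoint_left.1 h3 hx', ?_, ?_, hR⟩
      · rw [mem_union, mem_insert, not_or, not_or]
        exact ⟨hx2, fun h => h1 (h ▸ hx'), hx1⟩
      · rw [disjoint_union_left, disjoint_insert_left]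
        exact ⟨disjoint_of_subset_left s2 h3, h2, disjoint_of_subset_left s1 h3⟩
      · refine r2.trans (Walk.step (mem_insert_self x Ω₁) (Or.inl h4) ?_) ?_
        · rw [erase_insert (fun h => h1 (s1 h))]
          exact r1
        · rw [disjoint_insert_right]
          exact ⟨fun h => h1 (s2 h), hd.symm⟩
  · exact Or.inr ⟨Ω, x, u, w, h1, h2, h3, h5, h4⟩

/-- The rank lemma.  `Q i` are virtual arcs of rank `i`; two consecutive virtual arcs of ranks `i ≤ i'` on
a closed walk can be closed up by real arcs. -/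
theorem cl_of_rank {Q : ℕ → α → ℕ → α → Prop} {J : Finset ℕ} {N : ℕ} (hN : ∀ i, N < i → ∀ u x w, ¬ Q i u x w)
    (hclose : ∀ i i', i ≤ i' → ∀ v x b v' x' b' Ω, Q i v x b → Walk A Ω b v' → Disjoint Ω J →
      x' ∉ Ω → x' ∉ J → Q i' v' x' b' → Cl ∅ A) :
    ∀ r, Cl J (fun u x w => A u x w ∨ ∃ i, r ≤ i ∧ Q i u x w) → Cl ∅ A := by
  have key : ∀ r, Cl J (fun u x w => A u x w ∨ ∃ i, r ≤ i ∧ Q i u x w) →
      Cl J (fun u x w => A u x w ∨ ∃ i, r + 1 ≤ i ∧ Q i u x w) ∨ Cl ∅ A := by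
    intro r h
    have h' : Cl J (fun u x w => (A u x w ∨ ∃ i, r + 1 ≤ i ∧ Q i u x w) ∨ Q r u x w) := by
      refine h.mono ?_
      rintro u x w (h | ⟨i, hi, h⟩)
      · exact Or.inl (Or.inl h)
      · rcases Nat.eq_or_lt_of_le hi with rfl | hlt
        · exact Or.inr h
        · exact Or.inl (Or.inr ⟨i, hlt, h⟩)
    rcases h'.rotate with h1 | ⟨Ω, x, v, b, hxΩ, hxJ, hdJ, hwalk, hQ⟩
    · exact Or.inl h1
    · right
      have hwalk' : Walk (fun u x w => A u x w ∨ ∃ i, r ≤ i ∧ Q i u x w) Ω b v := by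
        refine hwalk.imp ?_
        rintro u x - w ((h | ⟨i, hi, h⟩) | h)
        · exact Or.inl h
        · exact Or.inr ⟨i, by omega, h⟩
        · exact Or.inr ⟨r, le_rfl, h⟩
      rcases hwalk'.first with h2 | ⟨Ω₁, x', v', b', s1, hx', hx1, r1, i, hi, hQ'⟩
      · exact hclose r r le_rfl v x b v x b Ω hQ h2 hdJ hxΩ hxJ hQ
      · exact hclose r i hi v x b v' x' b' Ω₁ hQ r1 (disjoint_of_subset_left s1 hdJ) hx1
          (disjoint_left.1 hdJ hx') hQ'
  intro r
  induction hk : N + 1 - r generalizing r with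
  | zero =>
    intro h
    refine (h.mono ?_ : Cl J A).empty
    rintro u x w (h | ⟨i, hi, h⟩)
    · exact h
    · exact absurd h (hN i (by omega) u x w)
  | succ k ih =>
    intro h
    rcases key r h with h1 | h1
    · exact ih (r + 1) (by omega) h1
    · exact h1

end Pool.Agent.Seym90
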